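import Pool.Agent.W23.DC.Defs
import Pool.Agent.H376R2.TT.Selwq

/-!
DC project (owner helper23): Selberg weights supported on squarefree odd numbers.
-/

namespace Pool.Agent.W586.DC

open Finset Pool.Agent.H376R2.TT Pool.Agent.H376R2.MR
open Pool.Agent.W23.DC
open scoped ArithmeticFunction.Moebius

theorem l_one (D : ℕ) (hD1 : 1 ≤ D) (q : ℕ) : selwq_l q D 1 = 1 := by
  have hG := selwq_G_pos q hD1
  unfold selwq_l
  have : (Icc 1 D).filter (fun m => 1 ∣ m) = Icc 1 D :=
    Finset.filter_true_of_mem (fun m _ => one_dvd m)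
  rw [this]
  show ((1 : ℕ) : ℝ) * ((μ 1 : ℤ) : ℝ) * (selwq_G q D)⁻¹ * selwq_G q D = 1
  rw [ArithmeticFunction.moebius_apply_one]
  push_cast
  field_simp

theorem l_nsq (D q d : ℕ) (hs : ¬ Squarefree d) : selwq_l q D d = 0 := by
  unfold selwq_l
  rw [ArithmeticFunction.moebius_eq_zero_of_not_squarefree hs]
  simp

theorem l_abs (D : ℕ) (hD1 : 1 ≤ D) (q d : ℕ) : |selwq_l q D d| ≤ 1 := by
  have hG := selwq_G_pos q hD1
  by_cases hs : Squarefree d
  · by_cases hdq : d.Coprime q
    · have h1 := selwq_key q D d hs hdq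
      have hnn : 0 ≤ ∑ m ∈ (Icc 1 D).filter (fun m => d ∣ m), selwq_g q m :=
        Finset.sum_nonneg fun m _ => selwq_g_nonneg q m
      have h2 : |((μ d : ℤ) : ℝ)| = 1 := by
        have := ArithmeticFunction.moebius_sq_eq_one_of_squarefree hs
        have h3 : ((μ d : ℤ) : ℝ) ^ 2 = 1 := by exact_mod_cast this
        rw [← sq_abs] at h3
        nlinarith [abs_nonneg ((μ d : ℤ) : ℝ)]
      unfold selwq_l
      rw [abs_mul, abs_mul, abs_mul, h2, abs_of_nonneg (Nat.cast_nonneg d), mul_one,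
        abs_of_pos (inv_pos.2 hG), abs_of_nonneg hnn]
      calc (d : ℝ) * (selwq_G q D)⁻¹ * ∑ m ∈ (Icc 1 D).filter (fun m => d ∣ m), selwq_g q m =
          (selwq_G q D)⁻¹ *
            ((d : ℝ) * ∑ m ∈ (Icc 1 D).filter (fun m => d ∣ m), selwq_g q m) := by ring
        _ ≤ (selwq_G q D)⁻¹ * selwq_G q D := mul_le_mul_of_nonneg_left h1 (inv_pos.2 hG).le
        _ = 1 := inv_mul_cancel₀ hG.ne'
    · rw [selwq_l_zero q D d hdq]
      simp
  · rw [l_nsq D q d hs]
    simp

theorem l_big (D q d : ℕ) (hd : D < d) : selwq_l q D d = 0 := by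
  unfold selwq_l
  have : (Icc 1 D).filter (fun m => d ∣ m) = ∅ := by
    apply Finset.filter_false_of_mem
    intro m hm hdm
    rw [Finset.mem_Icc] at hm
    have := Nat.le_of_dvd (by omega) hdm
    omega
  rw [this, Finset.sum_empty, mul_zero]

theorem WXS : St_WXS := by
  intro z hz
  have hz1 : 1 ≤ z := by omega
  have hG := selwq_G_pos 2 hz1
  refine ⟨selwq_l 2 z, ⟨l_one z hz1 2, l_abs z hz1 2, ?_, ?_⟩, ?_⟩
  · intro q hq
    refine ⟨?_, ?_, ?_⟩
    · rcases Nat.eq_zero_or_pos q with h | h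
      · exact absurd (by rw [h]; unfold selwq_l; simp) hq
      · exact h
    · by_contra h
      exact hq (l_big z 2 q (by omega))
    · by_contra h
      refine hq (selwq_l_zero 2 z q ?_)
      intro hcop
      exact h (Nat.Coprime.odd_of_right hcop)
  · rw [selwq_form 2 z hz1]
    have hlog : 0 < Real.log z := Real.log_pos (by exact_mod_cast (by omega : 1 < z))
    have h1 := selwq_G_ge 2 z (by norm_num) hz1
    have h2 : (selwq_G 2 z)⁻¹ = 1 / selwq_G 2 z := (one_div _).symm
    have h3 : Nat.totient 2 = 1 := by decide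
    rw [h3] at h1
    rw [h2, div_le_div_iff₀ hG hlog, one_mul]
    norm_num at h1
    exact h1
  · intro q hq
    by_contra h
    exact hq (l_nsq z 2 q h)

end Pool.Agent.W586.DC
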